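import Mathlib

set_option autoImplicit false

namespace Pool.Agent.Results.MP_fd050c_an.NoCompleteAuerbach

open Filter Topology TopologicalSpace
open scoped ZeroAtInfty

/-!
Renorm `c₀` by `N(x) = |x₀| + sup over t in [0,1] of ((1 - t²)‖x‖ + |t x₀ + t² κ(x)|)`,
where `κ(x)` is the sum of `2^(-(k+2)) x_(k+1)`.  If `g` norms `x` and `x₀ ≠ 0`, then
`|g(e₀)| ≥ 1` and `g(e_(k+1)) = b 2^(-(k+2))` for all large `k` with `Re (x₀ b) > 0`.
For a normal complete minimal sequence `(v_n, g_n)` one has `g_n(e₀) → 0`, so only finitely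
many `v_m` have nonzero zeroth coordinate, and the zeroth coordinate functional equals the finite
sum of `(v_m)₀ g_m`.  Evaluating at `e_(k+1)` for large `k` gives a contradiction.
-/

variable {𝕜 : Type} [RCLike 𝕜]

section czero

lemma norm_apply_le (x : C₀(ℕ, 𝕜)) (k : ℕ) : ‖x k‖ ≤ ‖x‖ := by
  rw [← ZeroAtInftyContinuousMap.norm_toBCF_eq_norm]
  exact x.toBCF.norm_coe_le_norm k

lemma norm_le_of_forall {x : C₀(ℕ, 𝕜)} {C : ℝ} (hC : 0 ≤ C) (h : ∀ k, ‖x k‖ ≤ C) :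
    ‖x‖ ≤ C := by
  rw [← ZeroAtInftyContinuousMap.norm_toBCF_eq_norm]
  exact (BoundedContinuousFunction.norm_le hC).2 h

lemma tendsto_apply (x : C₀(ℕ, 𝕜)) : Tendsto (fun k => x k) atTop (𝓝 0) := by
  have h := x.zero_at_infty'
  rw [cocompact_eq_cofinite, Nat.cofinite_eq_atTop] at h
  exact h

/-- The unit vectors of `c₀`. -/
noncomputable def e (𝕜 : Type) [RCLike 𝕜] (k : ℕ) : C₀(ℕ, 𝕜) where
  toFun := fun j => if j = k then 1 else 0
  continuous_toFun := continuous_of_discreteTopology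
  zero_at_infty' := by
    rw [cocompact_eq_cofinite, Nat.cofinite_eq_atTop]
    apply tendsto_const_nhds.congr'
    filter_upwards [eventually_gt_atTop k] with j hj
    rw [if_neg (by omega)]

lemma e_apply (k j : ℕ) : e 𝕜 k j = if j = k then 1 else 0 := rfl

lemma norm_e_le (k : ℕ) : ‖e 𝕜 k‖ ≤ 1 := by
  apply norm_le_of_forall zero_le_one
  intro j
  rw [e_apply]
  split_ifs <;> simp

lemma summable_w : Summable (fun k : ℕ => ((1 / 2 : ℝ)) ^ (k + 2)) := by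
  have := (summable_geometric_two).mul_left ((1 / 2 : ℝ) ^ 2)
  refine this.congr ?_
  intro k
  rw [pow_add]; ring

lemma tsum_w : ∑' k : ℕ, ((1 / 2 : ℝ)) ^ (k + 2) = 1 / 2 := by
  have h : ∀ k : ℕ, ((1 / 2 : ℝ)) ^ (k + 2) = (1 / 2 : ℝ) ^ 2 * (1 / 2) ^ k := by
    intro k; rw [pow_add]; ring
  rw [tsum_congr h, tsum_mul_left, tsum_geometric_two]
  norm_num

lemma norm_term (x : C₀(ℕ, 𝕜)) (k : ℕ) :
    ‖(((1 / 2 : ℝ) ^ (k + 2) : ℝ) : 𝕜) * x (k + 1)‖ ≤ (1 / 2 : ℝ) ^ (k + 2) * ‖x‖ := by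
  rw [norm_mul, RCLike.norm_ofReal, abs_of_pos (by positivity)]
  exact mul_le_mul_of_nonneg_left (norm_apply_le x _) (by positivity)

lemma summable_term (x : C₀(ℕ, 𝕜)) :
    Summable (fun k : ℕ => (((1 / 2 : ℝ) ^ (k + 2) : ℝ) : 𝕜) * x (k + 1)) :=
  Summable.of_norm_bounded (summable_w.mul_right ‖x‖) (norm_term x)

/-- The functional `x ↦ ∑ k, 2 ^ (-(k+2)) x (k+1)` on `c₀`. -/
noncomputable def kap : C₀(ℕ, 𝕜) →ₗ[𝕜] 𝕜 where
  toFun := fun x => ∑' k : ℕ, (((1 / 2 : ℝ) ^ (k + 2) : ℝ) : 𝕜) * x (k + 1)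
  map_add' := by
    intro x y
    rw [← (summable_term x).tsum_add (summable_term y)]
    congr 1
    ext k
    rw [ZeroAtInftyContinuousMap.add_apply, mul_add]
  map_smul' := by
    intro c x
    rw [RingHom.id_apply, smul_eq_mul, ← tsum_mul_left]
    congr 1
    ext k
    rw [ZeroAtInftyContinuousMap.smul_apply, smul_eq_mul]
    ring

lemma kap_apply (x : C₀(ℕ, 𝕜)) :
    kap x = ∑' k : ℕ, (((1 / 2 : ℝ) ^ (k + 2) : ℝ) : 𝕜) * x (k + 1) := rfl

lemma norm_kap_le (x : C₀(ℕ, 𝕜)) : ‖kap x‖ ≤ 1 / 2 * ‖x‖ := by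
  rw [kap_apply]
  have h := tsum_of_norm_bounded ((summable_w.mul_right ‖x‖).hasSum) (norm_term x)
  rwa [tsum_mul_right, tsum_w] at h

lemma kap_e_zero : kap (e 𝕜 0) = 0 := by
  rw [kap_apply]
  have : ∀ k : ℕ, (((1 / 2 : ℝ) ^ (k + 2) : ℝ) : 𝕜) * (e 𝕜 0) (k + 1) = 0 := by
    intro k
    rw [e_apply, if_neg (by omega), mul_zero]
  simp_rw [this]
  exact tsum_zero

lemma kap_e_succ (k : ℕ) : kap (e 𝕜 (k + 1)) = (((1 / 2 : ℝ) ^ (k + 2) : ℝ) : 𝕜) := by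
  rw [kap_apply, tsum_eq_single k]
  · rw [e_apply, if_pos rfl, mul_one]
  · intro j hj
    rw [e_apply, if_neg (by omega), mul_zero]

end czero

section norm

/-- The seminorm `(1 - t²)‖x‖ + |t x₀ + t² κ(x)|`. -/
noncomputable def pt (t : ℝ) (x : C₀(ℕ, 𝕜)) : ℝ :=
  (1 - t ^ 2) * ‖x‖ + ‖(t : 𝕜) * x 0 + ((t : 𝕜)) ^ 2 * kap x‖

/-- `F x = sup over t in [0,1] of (1 - t²)‖x‖ + |t x₀ + t² κ(x)|`. -/
noncomputable def F (x : C₀(ℕ, 𝕜)) : ℝ := ⨆ t : Set.Icc (0 : ℝ) 1, pt (t : ℝ) x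

/-- The new norm on `c₀`. -/
noncomputable def N (x : C₀(ℕ, 𝕜)) : ℝ := ‖x 0‖ + F x

lemma norm_coe_t {t : ℝ} (ht : 0 ≤ t) : ‖(t : 𝕜)‖ = t := by
  rw [RCLike.norm_ofReal, abs_of_nonneg ht]

lemma pt_le {t : ℝ} (h0 : 0 ≤ t) (h1 : t ≤ 1) (x : C₀(ℕ, 𝕜)) : pt t x ≤ 3 * ‖x‖ := by
  unfold pt
  have h2 : ‖(t : 𝕜) * x 0 + ((t : 𝕜)) ^ 2 * kap x‖ ≤ t * ‖x 0‖ + t ^ 2 * ‖kap x‖ := by
    refine (norm_add_le _ _).trans_eq ?_
    rw [norm_mul, norm_mul, norm_pow, norm_coe_t h0]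
  have h3 := norm_apply_le x 0
  have h4 := norm_kap_le x
  have h5 : t ^ 2 ≤ 1 := by nlinarith
  have h6 : 0 ≤ t ^ 2 := by positivity
  have h7 := norm_nonneg x
  have h8 := norm_nonneg (x 0)
  have h9 := norm_nonneg (kap x)
  have h10 : t * ‖x 0‖ ≤ ‖x‖ := by nlinarith
  have h11 : t ^ 2 * ‖kap x‖ ≤ ‖x‖ := by nlinarith
  have h12 : (1 - t ^ 2) * ‖x‖ ≤ ‖x‖ := by nlinarith
  linarith

lemma bdd (x : C₀(ℕ, 𝕜)) :
    BddAbove (Set.range (fun t : Set.Icc (0 : ℝ) 1 => pt (t : ℝ) x)) := by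
  refine ⟨3 * ‖x‖, ?_⟩
  rintro _ ⟨t, rfl⟩
  exact pt_le t.2.1 t.2.2 x

lemma pt_le_F {t : ℝ} (h0 : 0 ≤ t) (h1 : t ≤ 1) (x : C₀(ℕ, 𝕜)) : pt t x ≤ F x :=
  le_ciSup (bdd x) (⟨t, h0, h1⟩ : Set.Icc (0 : ℝ) 1)

lemma F_le {x : C₀(ℕ, 𝕜)} {C : ℝ} (h : ∀ t : ℝ, 0 ≤ t → t ≤ 1 → pt t x ≤ C) : F x ≤ C :=
  ciSup_le (fun t => h t t.2.1 t.2.2)

lemma pt_zero (x : C₀(ℕ, 𝕜)) : pt 0 x = ‖x‖ := by
  simp [pt]

lemma norm_le_F (x : C₀(ℕ, 𝕜)) : ‖x‖ ≤ F x := by
  rw [← pt_zero x]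
  exact pt_le_F le_rfl zero_le_one x

lemma exists_pt_eq_F (x : C₀(ℕ, 𝕜)) : ∃ t : ℝ, 0 ≤ t ∧ t ≤ 1 ∧ F x = pt t x := by
  have hc : ContinuousOn (fun t : ℝ => pt t x) (Set.Icc 0 1) := by
    apply Continuous.continuousOn
    unfold pt
    have : Continuous (fun t : ℝ => (t : 𝕜)) := RCLike.continuous_ofReal
    fun_prop
  obtain ⟨t, ht, hmax⟩ := isCompact_Icc.exists_isMaxOn (Set.nonempty_Icc.2 zero_le_one) hc
  refine ⟨t, ht.1, ht.2, le_antisymm ?_ (pt_le_F ht.1 ht.2 x)⟩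
  exact F_le (fun _ h0 h1 => hmax ⟨h0, h1⟩)

lemma pt_add_le {t : ℝ} (h0 : 0 ≤ t) (h1 : t ≤ 1) (x y : C₀(ℕ, 𝕜)) :
    pt t (x + y) ≤ pt t x + pt t y := by
  unfold pt
  have h2 : (t : 𝕜) * (x + y) 0 + ((t : 𝕜)) ^ 2 * kap (x + y)
      = ((t : 𝕜) * x 0 + ((t : 𝕜)) ^ 2 * kap x) + ((t : 𝕜) * y 0 + ((t : 𝕜)) ^ 2 * kap y) := by
    rw [ZeroAtInftyContinuousMap.add_apply, map_add]; ring
  rw [h2]
  have h3 := norm_add_le ((t : 𝕜) * x 0 + ((t : 𝕜)) ^ 2 * kap x)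
    ((t : 𝕜) * y 0 + ((t : 𝕜)) ^ 2 * kap y)
  have h4 := norm_add_le x y
  have h5 : 0 ≤ 1 - t ^ 2 := by nlinarith
  have h6 := mul_le_mul_of_nonneg_left h4 h5
  linarith

lemma pt_smul (t : ℝ) (c : 𝕜) (x : C₀(ℕ, 𝕜)) : pt t (c • x) = ‖c‖ * pt t x := by
  unfold pt
  have h2 : (t : 𝕜) * (c • x) 0 + ((t : 𝕜)) ^ 2 * kap (c • x)
      = c * ((t : 𝕜) * x 0 + ((t : 𝕜)) ^ 2 * kap x) := by
    rw [ZeroAtInftyContinuousMap.smul_apply, map_smul, smul_eq_mul, smul_eq_mul]; ring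
  rw [h2, norm_smul, norm_mul]
  ring

lemma F_add_le (x y : C₀(ℕ, 𝕜)) : F (x + y) ≤ F x + F y :=
  F_le (fun t h0 h1 => (pt_add_le h0 h1 x y).trans
    (add_le_add (pt_le_F h0 h1 x) (pt_le_F h0 h1 y)))

lemma F_smul (c : 𝕜) (x : C₀(ℕ, 𝕜)) : F (c • x) = ‖c‖ * F x := by
  unfold F
  simp_rw [pt_smul]
  rw [Real.mul_iSup_of_nonneg (norm_nonneg c)]

lemma N_add_le (x y : C₀(ℕ, 𝕜)) : N (x + y) ≤ N x + N y := by
  unfold N
  have h1 := F_add_le x y
  have h2 : ‖(x + y) 0‖ ≤ ‖x 0‖ + ‖y 0‖ := by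
    rw [ZeroAtInftyContinuousMap.add_apply]; exact norm_add_le _ _
  linarith

lemma N_smul (c : 𝕜) (x : C₀(ℕ, 𝕜)) : N (c • x) = ‖c‖ * N x := by
  unfold N
  rw [F_smul, ZeroAtInftyContinuousMap.smul_apply, smul_eq_mul, norm_mul]
  ring

lemma norm_le_N (x : C₀(ℕ, 𝕜)) : ‖x‖ ≤ N x := by
  unfold N
  linarith [norm_le_F x, norm_nonneg (x 0)]

lemma N_le (x : C₀(ℕ, 𝕜)) : N x ≤ 4 * ‖x‖ := by
  unfold N
  have h1 : F x ≤ 3 * ‖x‖ := F_le (fun t h0 h1 => pt_le h0 h1 x)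
  linarith [norm_apply_le x 0]

/-- `c₀` with the norm `N`. -/
def E (𝕜 : Type) [RCLike 𝕜] : Type := C₀(ℕ, 𝕜)

noncomputable instance : AddCommGroup (E 𝕜) := inferInstanceAs (AddCommGroup C₀(ℕ, 𝕜))
noncomputable instance : Module 𝕜 (E 𝕜) := inferInstanceAs (Module 𝕜 C₀(ℕ, 𝕜))
noncomputable instance : Norm (E 𝕜) := ⟨fun x => N (𝕜 := 𝕜) x⟩

/-- The identity map from `c₀` to its renorming. -/
noncomputable def toE : C₀(ℕ, 𝕜) ≃ₗ[𝕜] E 𝕜 := LinearEquiv.refl 𝕜 C₀(ℕ, 𝕜)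

lemma norm_toE (x : C₀(ℕ, 𝕜)) : ‖toE x‖ = N x := rfl

lemma norm_eq_N (x : E 𝕜) : ‖x‖ = N (toE.symm x) := rfl

lemma core : NormedSpace.Core 𝕜 (E 𝕜) where
  norm_nonneg := fun x => (norm_nonneg (toE.symm x)).trans (norm_le_N _)
  norm_smul := fun c x => N_smul c (toE.symm x)
  norm_triangle := fun x y => N_add_le (toE.symm x) (toE.symm y)
  norm_eq_zero_iff := by
    intro x
    constructor
    · intro h
      have h1 := norm_le_N (toE.symm x)
      rw [← norm_eq_N, h] at h1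
      have h2 : toE.symm x = 0 := norm_le_zero_iff.1 h1
      exact toE.symm.map_eq_zero_iff.1 h2
    · intro h
      subst h
      have h1 := N_le (toE.symm (0 : E 𝕜))
      rw [map_zero, norm_zero, mul_zero] at h1
      have h2 := (norm_nonneg (0 : C₀(ℕ, 𝕜))).trans (norm_le_N (0 : C₀(ℕ, 𝕜)))
      exact le_antisymm h1 h2

noncomputable instance : NormedAddCommGroup (E 𝕜) := NormedAddCommGroup.ofCore core
noncomputable instance : NormedSpace 𝕜 (E 𝕜) := NormedSpace.ofCore core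

/-- The identity map as an isomorphism of Banach spaces. -/
noncomputable def toEL : C₀(ℕ, 𝕜) ≃L[𝕜] E 𝕜 :=
  toE.toContinuousLinearEquivOfBounds 4 1 (fun x => N_le x)
    (fun x => by rw [one_mul]; exact norm_le_N (toE.symm x))

instance : CompleteSpace (E 𝕜) :=
  (completeSpace_congr (e := (toEL (𝕜 := 𝕜)).toEquiv)
    (toEL (𝕜 := 𝕜)).isUniformEmbedding).1 inferInstance

end norm

section separable

/-- The partial sums `∑_{k<n} x_k e_k`. -/
noncomputable def psum (x : C₀(ℕ, 𝕜)) (n : ℕ) : C₀(ℕ, 𝕜) :=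
  ∑ k ∈ Finset.range n, x k • e 𝕜 k

lemma sum_apply' (s : Finset ℕ) (f : ℕ → C₀(ℕ, 𝕜)) (j : ℕ) :
    (∑ k ∈ s, f k) j = ∑ k ∈ s, f k j := by
  classical
  induction s using Finset.induction_on with
  | empty => simp
  | insert a s ha ih =>
    rw [Finset.sum_insert ha, Finset.sum_insert ha, ZeroAtInftyContinuousMap.add_apply, ih]

lemma psum_apply (x : C₀(ℕ, 𝕜)) (n j : ℕ) : psum x n j = if j < n then x j else 0 := by
  unfold psum
  rw [sum_apply']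
  simp only [ZeroAtInftyContinuousMap.smul_apply, e_apply, smul_eq_mul, mul_ite, mul_one,
    mul_zero]
  rw [Finset.sum_ite_eq]
  simp

lemma tendsto_psum (x : C₀(ℕ, 𝕜)) : Tendsto (fun n => psum x n) atTop (𝓝 x) := by
  rw [Metric.tendsto_atTop]
  intro ε hε
  obtain ⟨K, hK⟩ := (Metric.tendsto_atTop.1 (tendsto_apply x)) (ε / 2) (by positivity)
  refine ⟨K, fun n hn => ?_⟩
  rw [dist_eq_norm]
  refine lt_of_le_of_lt (norm_le_of_forall (C := ε / 2) (by positivity) ?_) (by linarith)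
  intro j
  rw [ZeroAtInftyContinuousMap.sub_apply, psum_apply]
  split_ifs with hj
  · rw [sub_self, norm_zero]; positivity
  · have := hK j (by omega)
    rw [dist_zero_right] at this
    rw [zero_sub, norm_neg]
    exact this.le

lemma dense_span_e :
    closure (Submodule.span 𝕜 (Set.range (e 𝕜)) : Set C₀(ℕ, 𝕜)) = Set.univ := by
  rw [Set.eq_univ_iff_forall]
  intro x
  refine mem_closure_of_tendsto (tendsto_psum x) (Filter.Eventually.of_forall (fun n => ?_))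
  exact Submodule.sum_mem _ (fun k _ => Submodule.smul_mem _ _
    (Submodule.subset_span ⟨k, rfl⟩))

instance : SeparableSpace C₀(ℕ, 𝕜) := by
  rw [← isSeparable_univ_iff, ← dense_span_e]
  apply IsSeparable.closure
  apply IsSeparable.span
  exact (Set.countable_range _).isSeparable

instance : SeparableSpace (E 𝕜) :=
  (toEL (𝕜 := 𝕜)).surjective.denseRange.separableSpace (toEL (𝕜 := 𝕜)).continuous

lemma not_finiteDimensional : ¬ FiniteDimensional 𝕜 (E 𝕜) := by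
  intro hfin
  have hli : LinearIndependent 𝕜 (fun i : ℕ => (e 𝕜 i : C₀(ℕ, 𝕜))) := by
    rw [linearIndependent_iff']
    intro s g hg i hi
    have h1 := congrArg (fun f : C₀(ℕ, 𝕜) => f i) hg
    simp only [sum_apply', ZeroAtInftyContinuousMap.smul_apply, e_apply, smul_eq_mul, mul_ite,
      mul_one, mul_zero, ZeroAtInftyContinuousMap.zero_apply] at h1
    rw [Finset.sum_ite_eq] at h1
    simpa [hi] using h1
  have hli' : LinearIndependent 𝕜 (fun i : ℕ => toE (e 𝕜 i)) :=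
    hli.map' toE.toLinearMap toE.ker
  exact not_finite_iff_infinite.2 inferInstance hli'.finite

end separable

section key

lemma N_sub_le (x : C₀(ℕ, 𝕜)) : N (x - x 0 • e 𝕜 0) ≤ ‖x‖ := by
  set y := x - x 0 • e 𝕜 0 with hy
  have hy0 : y 0 = 0 := by
    rw [hy, ZeroAtInftyContinuousMap.sub_apply, ZeroAtInftyContinuousMap.smul_apply, e_apply,
      if_pos rfl, smul_eq_mul, mul_one, sub_self]
  have hky : kap y = kap x := by
    rw [hy, map_sub, map_smul, kap_e_zero, smul_zero, sub_zero]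
  have hyn : ‖y‖ ≤ ‖x‖ := by
    apply norm_le_of_forall (norm_nonneg x)
    intro j
    by_cases hj : j = 0
    · subst hj
      rw [hy0, norm_zero]; exact norm_nonneg x
    · rw [hy, ZeroAtInftyContinuousMap.sub_apply, ZeroAtInftyContinuousMap.smul_apply, e_apply,
        if_neg hj, smul_zero, sub_zero]
      exact norm_apply_le x j
  unfold N
  rw [hy0, norm_zero, zero_add]
  apply F_le
  intro t h0 h1
  unfold pt
  rw [hy0, mul_zero, zero_add, hky, norm_mul, norm_pow, norm_coe_t h0]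
  have h2 := norm_kap_le x
  have h3 : t ^ 2 ≤ 1 := by nlinarith
  have h4 : 0 ≤ t ^ 2 := by positivity
  have h5 := norm_nonneg x
  have h6 : (1 - t ^ 2) * ‖y‖ ≤ (1 - t ^ 2) * ‖x‖ :=
    mul_le_mul_of_nonneg_left hyn (by linarith)
  have h7 : t ^ 2 * ‖kap x‖ ≤ t ^ 2 * ‖x‖ :=
    mul_le_mul_of_nonneg_left (by linarith) h4
  linarith

lemma norm_lt_F {x : C₀(ℕ, 𝕜)} (hx : x 0 ≠ 0) : ‖x‖ < F x := by
  have ha : 0 < ‖x 0‖ := norm_pos_iff.2 hx
  have han := norm_apply_le x 0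
  have hn : 0 < ‖x‖ := lt_of_lt_of_le ha han
  set a := ‖x 0‖ with hadef
  set n := ‖x‖ with hndef
  set t : ℝ := a / (2 * n) with ht
  have ht0 : 0 < t := by positivity
  have ht1 : t ≤ 1 := by
    rw [ht, div_le_one (by positivity)]; linarith
  have hta : t * (2 * n) = a := by
    rw [ht]; field_simp
  have h1 : t * a - t ^ 2 * (1 / 2 * n) ≤ ‖(t : 𝕜) * x 0 + ((t : 𝕜)) ^ 2 * kap x‖ := by
    have h2 : ‖(t : 𝕜) * x 0‖ ≤ ‖(t : 𝕜) * x 0 + ((t : 𝕜)) ^ 2 * kap x‖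
        + ‖((t : 𝕜)) ^ 2 * kap x‖ := by
      have h := norm_sub_le ((t : 𝕜) * x 0 + ((t : 𝕜)) ^ 2 * kap x) (((t : 𝕜)) ^ 2 * kap x)
      rwa [add_sub_cancel_right] at h
    rw [norm_mul, norm_coe_t ht0.le, norm_mul, norm_pow, norm_coe_t ht0.le] at h2
    have h3 := mul_le_mul_of_nonneg_left (norm_kap_le x) (by positivity : 0 ≤ t ^ 2)
    linarith
  have h4 : n < pt t x := by
    unfold pt
    have h5 : t * a = 2 * (t ^ 2 * n) := by rw [← hta]; ring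
    have h6 : 0 < t ^ 2 * n := by positivity
    linarith
  exact lt_of_lt_of_le h4 (pt_le_F ht0.le ht1 x)

lemma N_le_N {x y : C₀(ℕ, 𝕜)} (h0 : y 0 = x 0) (hk : kap y = kap x) (hn : ‖y‖ ≤ ‖x‖) :
    N y ≤ N x := by
  unfold N
  rw [h0]
  have : F y ≤ F x := by
    apply F_le
    intro t ht0 ht1
    refine le_trans ?_ (pt_le_F ht0 ht1 x)
    unfold pt
    rw [h0, hk]
    have := mul_le_mul_of_nonneg_left hn (by nlinarith : 0 ≤ 1 - t ^ 2)
    linarith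
  linarith

lemma N_lt_N {x : C₀(ℕ, 𝕜)} (hx : x 0 ≠ 0) {ε : ℝ} (hε : 0 < ε) (hε1 : ε ≤ 1) (k : ℕ)
    (hn : ‖x - ((ε : 𝕜) * x 0) • e 𝕜 (k + 1)‖ ≤ ‖x‖) :
    N (x - ((ε : 𝕜) * x 0) • e 𝕜 (k + 1)) < N x := by
  set y := x - ((ε : 𝕜) * x 0) • e 𝕜 (k + 1) with hy
  set w : ℝ := (1 / 2 : ℝ) ^ (k + 2) with hw
  have hwpos : 0 < w := by positivity
  have hw1 : w ≤ 1 := pow_le_one₀ (by norm_num) (by norm_num)
  have hy0 : y 0 = x 0 := by
    rw [hy, ZeroAtInftyContinuousMap.sub_apply, ZeroAtInftyContinuousMap.smul_apply, e_apply,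
      if_neg (by omega), smul_zero, sub_zero]
  have hky : kap y = kap x - (ε : 𝕜) * x 0 * (w : 𝕜) := by
    rw [hy, map_sub, map_smul, kap_e_succ, smul_eq_mul]
  unfold N
  rw [hy0]
  have hF := norm_lt_F hx
  have : F y < F x := by
    obtain ⟨t, ht0, ht1, hFt⟩ := exists_pt_eq_F y
    rw [hFt]
    rcases ht0.eq_or_lt with h | htpos
    · rw [← h, pt_zero]
      exact lt_of_le_of_lt hn hF
    · set l : ℝ := 1 - t * ε * w with hl
      have h1 : 0 < t * ε * w := by positivity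
      have h2 : t * ε * w ≤ 1 := by
        have h3 : t * ε ≤ 1 := by nlinarith
        nlinarith [mul_nonneg ht0 hε.le]
      have hl0 : 0 ≤ l := by rw [hl]; linarith
      have hl1 : 0 < 1 - l := by rw [hl]; linarith
      have hdec : (t : 𝕜) * y 0 + ((t : 𝕜)) ^ 2 * kap y
          = (l : 𝕜) * ((t : 𝕜) * x 0 + ((t : 𝕜)) ^ 2 * kap x)
            + ((1 - l : ℝ) : 𝕜) * (((t : 𝕜)) ^ 2 * kap x) := by
        rw [hy0, hky, hl]
        push_cast
        ring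
      have hpt : pt t y ≤ l * pt t x + (1 - l) * ((1 - t ^ 2) * ‖x‖ + t ^ 2 * ‖kap x‖) := by
        unfold pt
        rw [hdec]
        have h3 := norm_add_le ((l : 𝕜) * ((t : 𝕜) * x 0 + ((t : 𝕜)) ^ 2 * kap x))
          (((1 - l : ℝ) : 𝕜) * (((t : 𝕜)) ^ 2 * kap x))
        rw [norm_mul (l : 𝕜), norm_coe_t hl0, norm_mul ((1 - l : ℝ) : 𝕜), norm_coe_t hl1.le,
          norm_mul ((t : 𝕜) ^ 2), norm_pow, norm_coe_t ht0] at h3
        have h4 := mul_le_mul_of_nonneg_left hn (by nlinarith : 0 ≤ 1 - t ^ 2)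
        nlinarith
      have h5 : (1 - t ^ 2) * ‖x‖ + t ^ 2 * ‖kap x‖ ≤ ‖x‖ := by
        have h6 := mul_le_mul_of_nonneg_left (norm_kap_le x) (by positivity : 0 ≤ t ^ 2)
        have h7 : 0 ≤ t ^ 2 * ‖x‖ := by positivity
        nlinarith
      have h8 := pt_le_F ht0 ht1 x
      have h9 : l * pt t x ≤ l * F x := mul_le_mul_of_nonneg_left h8 hl0
      have h10 := mul_le_mul_of_nonneg_left h5 hl1.le
      have h11 : (1 - l) * ‖x‖ < (1 - l) * F x := mul_lt_mul_of_pos_left hF hl1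
      calc pt t y ≤ l * pt t x + (1 - l) * ((1 - t ^ 2) * ‖x‖ + t ^ 2 * ‖kap x‖) := hpt
        _ ≤ l * F x + (1 - l) * ‖x‖ := add_le_add h9 h10
        _ < l * F x + (1 - l) * F x := by linarith
        _ = F x := by ring
  linarith

lemma exists_far {x : C₀(ℕ, 𝕜)} (hx : 0 < ‖x‖) :
    ∃ K : ℕ, ∀ w : C₀(ℕ, 𝕜), ‖w‖ ≤ ‖x‖ / 2 → (∀ j, j ≤ K → w j = 0) → ‖x + w‖ ≤ ‖x‖ := by
  obtain ⟨K, hK⟩ := (Metric.tendsto_atTop.1 (tendsto_apply x)) (‖x‖ / 2) (by positivity)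
  refine ⟨K, fun w hw hw0 => ?_⟩
  apply norm_le_of_forall hx.le
  intro j
  rw [ZeroAtInftyContinuousMap.add_apply]
  by_cases hj : j ≤ K
  · rw [hw0 j hj, add_zero]; exact norm_apply_le x j
  · have h1 := hK j (by omega)
    rw [dist_zero_right] at h1
    calc ‖x j + w j‖ ≤ ‖x j‖ + ‖w j‖ := norm_add_le _ _
      _ ≤ ‖x‖ / 2 + ‖x‖ / 2 := add_le_add h1.le ((norm_apply_le w j).trans hw)
      _ = ‖x‖ := by ring

lemma one_le_norm_apply {φ : C₀(ℕ, 𝕜) →ₗ[𝕜] 𝕜} (hφ : ∀ x, ‖φ x‖ ≤ N x) {x : C₀(ℕ, 𝕜)}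
    (hN : N x = 1) (hx1 : φ x = 1) (hx : x 0 ≠ 0) : 1 ≤ ‖φ (e 𝕜 0)‖ := by
  have h1 : ‖φ (x - x 0 • e 𝕜 0)‖ ≤ ‖x‖ := (hφ _).trans (N_sub_le x)
  rw [map_sub, map_smul, hx1, smul_eq_mul] at h1
  have h2 := norm_le_F x
  have h3 : F x = 1 - ‖x 0‖ := by
    have : N x = ‖x 0‖ + F x := rfl
    rw [hN] at this; linarith
  have h4 : 1 - ‖x 0 * φ (e 𝕜 0)‖ ≤ ‖1 - x 0 * φ (e 𝕜 0)‖ := by
    have := norm_sub_norm_le (1 : 𝕜) (x 0 * φ (e 𝕜 0))
    rwa [norm_one] at this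
  rw [norm_mul] at h4
  have h5 : ‖x 0‖ * 1 ≤ ‖x 0‖ * ‖φ (e 𝕜 0)‖ := by linarith
  exact le_of_mul_le_mul_left h5 (norm_pos_iff.2 hx)

lemma exists_ratio {φ : C₀(ℕ, 𝕜) →ₗ[𝕜] 𝕜} (hφ : ∀ x, ‖φ x‖ ≤ N x) {x : C₀(ℕ, 𝕜)}
    (hN : N x = 1) (hx1 : φ x = 1) (hx : x 0 ≠ 0) :
    ∃ (K : ℕ) (b : 𝕜), (∀ k, K ≤ k → φ (e 𝕜 (k + 1)) = b * (((1 / 2 : ℝ) ^ (k + 2) : ℝ) : 𝕜)) ∧
      0 < RCLike.re (x 0 * b) := by
  have hn : 0 < ‖x‖ := lt_of_lt_of_le (norm_pos_iff.2 hx) (norm_apply_le x 0)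
  obtain ⟨K, hK⟩ := exists_far hn
  have hwpos : ∀ k : ℕ, (0 : ℝ) < (1 / 2 : ℝ) ^ (k + 2) := fun k => by positivity
  have hw1 : ∀ k : ℕ, (1 / 2 : ℝ) ^ (k + 2) ≤ 1 :=
    fun k => pow_le_one₀ (by norm_num) (by norm_num)
  have hprop : ∀ j k, K ≤ j → K ≤ k →
      (((1 / 2 : ℝ) ^ (j + 2) : ℝ) : 𝕜) * φ (e 𝕜 (k + 1))
        = (((1 / 2 : ℝ) ^ (k + 2) : ℝ) : 𝕜) * φ (e 𝕜 (j + 1)) := by
    intro j k hj hk
    set h : C₀(ℕ, 𝕜) := (((1 / 2 : ℝ) ^ (j + 2) : ℝ) : 𝕜) • e 𝕜 (k + 1)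
      - (((1 / 2 : ℝ) ^ (k + 2) : ℝ) : 𝕜) • e 𝕜 (j + 1) with hh
    have hh0 : ∀ i, i ≤ K → h i = 0 := by
      intro i hi
      rw [hh, ZeroAtInftyContinuousMap.sub_apply, ZeroAtInftyContinuousMap.smul_apply,
        ZeroAtInftyContinuousMap.smul_apply, e_apply, e_apply, if_neg (by omega),
        if_neg (by omega), smul_zero, smul_zero, sub_zero]
    have hhk : kap h = 0 := by
      rw [hh, map_sub, map_smul, map_smul, kap_e_succ, kap_e_succ, smul_eq_mul, smul_eq_mul]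
      ring
    have hhn : ‖h‖ ≤ 2 := by
      have h1 : ∀ a b : ℕ, ‖(((1 / 2 : ℝ) ^ (a + 2) : ℝ) : 𝕜) • e 𝕜 (b + 1)‖ ≤ 1 := by
        intro a b
        rw [norm_smul, norm_coe_t (hwpos a).le]
        calc _ ≤ (1 : ℝ) * 1 := mul_le_mul (hw1 a) (norm_e_le _) (norm_nonneg _) zero_le_one
          _ = 1 := one_mul 1
      have h2 := norm_sub_le ((((1 / 2 : ℝ) ^ (j + 2) : ℝ) : 𝕜) • e 𝕜 (k + 1))
        ((((1 / 2 : ℝ) ^ (k + 2) : ℝ) : 𝕜) • e 𝕜 (j + 1))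
      rw [← hh] at h2
      linarith [h1 j k, h1 k j]
    have hzero : φ h = 0 := by
      by_contra hne
      have hpos : 0 < ‖φ h‖ := norm_pos_iff.2 hne
      set δ : ℝ := ‖x‖ / (4 * ‖φ h‖) with hδ
      have hδpos : 0 < δ := by positivity
      set c : 𝕜 := (δ : 𝕜) * (starRingEnd 𝕜) (φ h) with hc
      have hcn : ‖c‖ = ‖x‖ / 4 := by
        rw [hc, norm_mul, RCLike.norm_conj, norm_coe_t hδpos.le, hδ]
        field_simp
      have hxc : ‖x + c • h‖ ≤ ‖x‖ := by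
        apply hK
        · rw [norm_smul, hcn]
          nlinarith [norm_nonneg x]
        · intro i hi
          rw [ZeroAtInftyContinuousMap.smul_apply, hh0 i hi, smul_zero]
      have hNc : N (x + c • h) ≤ 1 := by
        rw [← hN]
        apply N_le_N _ _ hxc
        · rw [ZeroAtInftyContinuousMap.add_apply, ZeroAtInftyContinuousMap.smul_apply,
            hh0 0 (Nat.zero_le _), smul_zero, add_zero]
        · rw [map_add, map_smul, hhk, smul_zero, add_zero]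
      have h3 := (hφ (x + c • h)).trans hNc
      have h4 : φ (x + c • h) = ((1 + δ * ‖φ h‖ ^ 2 : ℝ) : 𝕜) := by
        rw [map_add, map_smul, hx1, smul_eq_mul, hc, mul_assoc, RCLike.conj_mul]
        push_cast
        ring
      have h5 : 0 < δ * ‖φ h‖ ^ 2 := by positivity
      rw [h4, norm_coe_t (by linarith)] at h3
      linarith
    rw [hh, map_sub, map_smul, map_smul, smul_eq_mul, smul_eq_mul, sub_eq_zero] at hzero
    exact hzero
  have hwK : ((((1 / 2 : ℝ) ^ (K + 2) : ℝ) : 𝕜)) ≠ 0 := by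
    rw [RCLike.ofReal_ne_zero]; exact (hwpos K).ne'
  refine ⟨K, φ (e 𝕜 (K + 1)) / (((1 / 2 : ℝ) ^ (K + 2) : ℝ) : 𝕜), ?_, ?_⟩
  · intro k hk
    have := hprop K k le_rfl hk
    field_simp
    rw [mul_comm, this]
    ring
  · have hlt : N (x - (((1 / 2 : ℝ) : 𝕜) * x 0) • e 𝕜 (K + 1)) < 1 := by
      refine lt_of_lt_of_eq (N_lt_N hx (by norm_num) (by norm_num) _ ?_) hN
      have h1 := hK (-((((1 / 2 : ℝ) : 𝕜) * x 0) • e 𝕜 (K + 1))) ?_ ?_
      · rwa [← sub_eq_add_neg] at h1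
      · rw [norm_neg, norm_smul, norm_mul, norm_coe_t (by norm_num)]
        have h2 := norm_apply_le x 0
        have h3 := norm_e_le (𝕜 := 𝕜) (K + 1)
        have h4 := norm_nonneg (x 0)
        have h5 := norm_nonneg (e 𝕜 (K + 1))
        calc 1 / 2 * ‖x 0‖ * ‖e 𝕜 (K + 1)‖ ≤ 1 / 2 * ‖x‖ * 1 := by
              apply mul_le_mul _ h3 h5 (by positivity)
              linarith
          _ = ‖x‖ / 2 := by ring
      · intro i hi
        rw [ZeroAtInftyContinuousMap.neg_apply, ZeroAtInftyContinuousMap.smul_apply, e_apply,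
          if_neg (by omega), smul_zero, neg_zero]
    have h6 := lt_of_le_of_lt (hφ _) hlt
    rw [map_sub, map_smul, hx1, smul_eq_mul] at h6
    have h7 : RCLike.re (1 - ((1 / 2 : ℝ) : 𝕜) * x 0 * φ (e 𝕜 (K + 1))) < 1 :=
      lt_of_le_of_lt (RCLike.re_le_norm _) h6
    rw [map_sub, RCLike.one_re, mul_assoc, RCLike.re_ofReal_mul] at h7
    have h8 : 0 < RCLike.re (x 0 * φ (e 𝕜 (K + 1))) := by linarith
    have h9 : x 0 * (φ (e 𝕜 (K + 1)) / (((1 / 2 : ℝ) ^ (K + 2) : ℝ) : 𝕜))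
        = ((((1 / 2 : ℝ) ^ (K + 2))⁻¹ : ℝ) : 𝕜) * (x 0 * φ (e 𝕜 (K + 1))) := by
      rw [RCLike.ofReal_inv]
      field_simp
    rw [h9, RCLike.re_ofReal_mul]
    exact mul_pos (inv_pos.2 (hwpos K)) h8

end key

section main

/-- A normal complete minimal sequence `x` with associated functionals `f`. -/
structure IsNormalCompleteMinimal (𝕜 : Type) [RCLike 𝕜] {X : Type} [NormedAddCommGroup X]
    [NormedSpace 𝕜 X] (x : ℕ → X) (f : ℕ → StrongDual 𝕜 X) : Prop where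
  biorth : ∀ i j, f i (x j) = if i = j then 1 else 0
  complete : (Submodule.span 𝕜 (Set.range x)).topologicalClosure = ⊤
  norm_x : ∀ n, ‖x n‖ = 1
  norm_f : ∀ n, ‖f n‖ = 1

lemma tendsto_zero_of_complete {X : Type} [NormedAddCommGroup X] [NormedSpace 𝕜 X]
    {x : ℕ → X} {f : ℕ → StrongDual 𝕜 X} (h : IsNormalCompleteMinimal 𝕜 x f) (y : X) :
    Tendsto (fun n => f n y) atTop (𝓝 0) := by
  have hspan : ∀ z ∈ Submodule.span 𝕜 (Set.range x), ∀ᶠ n in atTop, f n z = 0 := by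
    intro z hz
    induction hz using Submodule.span_induction with
    | mem z hz =>
      obtain ⟨m, rfl⟩ := hz
      filter_upwards [eventually_gt_atTop m] with n hn
      rw [h.biorth, if_neg (by omega)]
    | zero => simp
    | add a b _ _ ha hb =>
      filter_upwards [ha, hb] with n h1 h2
      rw [map_add, h1, h2, add_zero]
    | smul c a _ ha =>
      filter_upwards [ha] with n h1
      rw [map_smul, h1, smul_zero]
  have hy : y ∈ closure (Submodule.span 𝕜 (Set.range x) : Set X) := by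
    rw [← Submodule.topologicalClosure_coe, h.complete]
    trivial
  rw [Metric.tendsto_atTop]
  intro ε hε
  rw [Metric.mem_closure_iff] at hy
  obtain ⟨z, hz, hyz⟩ := hy ε hε
  obtain ⟨M, hM⟩ := eventually_atTop.1 (hspan z hz)
  refine ⟨M, fun n hn => ?_⟩
  rw [dist_zero_right]
  have h1 : f n y = f n (y - z) := by rw [map_sub, hM n hn, sub_zero]
  rw [h1]
  calc ‖f n (y - z)‖ ≤ ‖f n‖ * ‖y - z‖ := (f n).le_opNorm _
    _ = ‖y - z‖ := by rw [h.norm_f, one_mul]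
    _ < ε := by rwa [dist_eq_norm] at hyz

/-- The first coordinate functional. -/
noncomputable def coord : StrongDual 𝕜 (E 𝕜) :=
  LinearMap.mkContinuous
    { toFun := fun x => (toE.symm x : C₀(ℕ, 𝕜)) 0
      map_add' := fun x y => by rw [map_add, ZeroAtInftyContinuousMap.add_apply]
      map_smul' := fun c x => by
        rw [map_smul, ZeroAtInftyContinuousMap.smul_apply, RingHom.id_apply] }
    1 (fun x => by
      rw [one_mul]
      exact (norm_apply_le (toE.symm x) 0).trans (norm_le_N _))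

lemma coord_apply (x : E 𝕜) : coord x = (toE.symm x : C₀(ℕ, 𝕜)) 0 := rfl

theorem no_complete (v : ℕ → E 𝕜) (g : ℕ → StrongDual 𝕜 (E 𝕜)) :
    ¬ IsNormalCompleteMinimal 𝕜 v g := by
  classical
  intro h
  -- the functionals on `c₀`
  let φ : ℕ → (C₀(ℕ, 𝕜) →ₗ[𝕜] 𝕜) := fun n => (g n).toLinearMap ∘ₗ toE.toLinearMap
  have hφdef : ∀ n x, φ n x = g n (toE x) := fun n x => rfl
  have hφ : ∀ n x, ‖φ n x‖ ≤ N x := by
    intro n x
    rw [hφdef]
    have h1 := (g n).le_opNorm (toE x)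
    rwa [h.norm_f, one_mul, norm_toE] at h1
  have hN : ∀ n, N (toE.symm (v n)) = 1 := fun n => by
    rw [← norm_eq_N]; exact h.norm_x n
  have hone : ∀ n, φ n (toE.symm (v n)) = 1 := fun n => by
    rw [hφdef, LinearEquiv.apply_symm_apply, h.biorth, if_pos rfl]
  -- finitely many members have nonzero first coordinate
  have hfin : ∃ M, ∀ n, M ≤ n → coord (v n) = 0 := by
    have ht := tendsto_zero_of_complete h (toE (e 𝕜 0))
    obtain ⟨M, hM⟩ := (Metric.tendsto_atTop.1 ht) 1 one_pos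
    refine ⟨M, fun n hn => ?_⟩
    by_contra hne
    rw [coord_apply] at hne
    have h1 := one_le_norm_apply (hφ n) (hN n) (hone n) hne
    have h2 := hM n hn
    rw [dist_zero_right] at h2
    rw [hφdef] at h1
    linarith
  obtain ⟨M, hM⟩ := hfin
  -- the first coordinate functional is a finite combination of the `g n`
  have hcomb : coord = ∑ m ∈ Finset.range M, coord (v m) • g m := by
    have hker : Submodule.span 𝕜 (Set.range v)
        ≤ LinearMap.ker ((coord - ∑ m ∈ Finset.range M, coord (v m) • g m :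
          StrongDual 𝕜 (E 𝕜)) : E 𝕜 →ₗ[𝕜] 𝕜) := by
      rw [Submodule.span_le]
      rintro _ ⟨n, rfl⟩
      rw [SetLike.mem_coe, LinearMap.mem_ker, ContinuousLinearMap.coe_coe,
        sub_apply, sum_apply]
      simp only [smul_apply, smul_eq_mul, h.biorth, mul_ite, mul_one, mul_zero]
      rw [Finset.sum_ite_eq']
      by_cases hn : n < M
      · simp [hn]
      · simp [hn, hM n (not_lt.1 hn)]
    have hcl := Submodule.topologicalClosure_minimal _ hker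
      (ContinuousLinearMap.isClosed_ker _)
    rw [h.complete, top_le_iff] at hcl
    ext x
    have hx : x ∈ LinearMap.ker ((coord - ∑ m ∈ Finset.range M, coord (v m) • g m :
          StrongDual 𝕜 (E 𝕜)) : E 𝕜 →ₗ[𝕜] 𝕜) := by
      rw [hcl]; trivial
    rw [LinearMap.mem_ker, ContinuousLinearMap.coe_coe, sub_apply, sub_eq_zero] at hx
    exact hx
  have heval : ∀ x : C₀(ℕ, 𝕜), x 0 = ∑ m ∈ Finset.range M, coord (v m) * φ m x := by
    intro x
    have h1 := congrArg (fun f : StrongDual 𝕜 (E 𝕜) => f (toE x)) hcomb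
    simp only [sum_apply, smul_apply, smul_eq_mul] at h1
    rw [coord_apply, LinearEquiv.symm_apply_apply] at h1
    exact h1
  -- some member has nonzero first coordinate
  have hex : ∃ m ∈ Finset.range M, coord (v m) ≠ 0 := by
    by_contra hcon
    push Not at hcon
    have h1 := heval (e 𝕜 0)
    rw [e_apply, if_pos rfl, Finset.sum_eq_zero] at h1
    · exact one_ne_zero h1
    · intro m hm
      rw [hcon m hm, zero_mul]
  -- ratios
  have hratio : ∀ m, ∃ (K : ℕ) (b : 𝕜), (∀ k, K ≤ k →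
      coord (v m) * φ m (e 𝕜 (k + 1))
        = (((1 / 2 : ℝ) ^ (k + 2) : ℝ) : 𝕜) * (coord (v m) * b)) ∧
      0 ≤ RCLike.re (coord (v m) * b) ∧ (coord (v m) ≠ 0 → 0 < RCLike.re (coord (v m) * b)) := by
    intro m
    by_cases hm : coord (v m) = 0
    · refine ⟨0, 0, ?_, ?_, ?_⟩
      · intro k _
        rw [hm]; ring
      · simp
      · intro h1; exact absurd hm h1
    · obtain ⟨K, b, hb, hre⟩ := exists_ratio (hφ m) (hN m) (hone m) hm
      refine ⟨K, b, ?_, hre.le, fun _ => hre⟩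
      intro k hk
      rw [hb k hk]; ring
  choose K b hb hre hre' using hratio
  obtain ⟨L, hL⟩ : ∃ L, ∀ m ∈ Finset.range M, K m ≤ L :=
    ⟨(Finset.range M).sup K, fun m hm => Finset.le_sup hm⟩
  have h1 := heval (e 𝕜 (L + 1))
  rw [e_apply, if_neg (by omega), Finset.sum_congr rfl (fun m hm => hb m L (hL m hm)),
    ← Finset.mul_sum] at h1
  have h2 : ∑ m ∈ Finset.range M, coord (v m) * b m = 0 := by
    rcases mul_eq_zero.1 h1.symm with h3 | h3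
    · exfalso
      rw [RCLike.ofReal_eq_zero] at h3
      exact (by positivity : (0 : ℝ) < (1 / 2 : ℝ) ^ (L + 2)).ne' h3
    · exact h3
  have h3 : 0 < RCLike.re (∑ m ∈ Finset.range M, coord (v m) * b m) := by
    rw [map_sum]
    obtain ⟨m, hm, hne⟩ := hex
    exact Finset.sum_pos' (fun i _ => hre i) ⟨m, hm, hre' m hne⟩
  rw [h2, map_zero] at h3
  exact lt_irrefl _ h3

end main

theorem result (𝕜 : Type) [RCLike 𝕜] :
    ∃ (X : Type) (_ : NormedAddCommGroup X) (_ : NormedSpace 𝕜 X),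
      CompleteSpace X ∧ SeparableSpace X ∧ ¬ FiniteDimensional 𝕜 X ∧
      ¬ ∃ (x : ℕ → X) (f : ℕ → StrongDual 𝕜 X), IsNormalCompleteMinimal 𝕜 x f := by
  refine ⟨E 𝕜, inferInstance, inferInstance, inferInstance, inferInstance,
    not_finiteDimensional, ?_⟩
  rintro ⟨v, g, h⟩
  exact no_complete v g h

end Pool.Agent.Results.MP_fd050c_an.NoCompleteAuerbach
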